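import Pool.Agent.NTW.StmtsA

/-!
Row DCP of table `ntw` (MP_e54c4c_gt): decomposition of the box of a top simplex.
-/

set_option autoImplicit false

open Matrix Filter Topology

namespace Pool.Agent.NTW.H31

open Pool.Agent.PFS Pool.Agent.PFJ Pool.Agent.NTS Pool.Agent.NTW

variable {n K : ℕ}

theorem cl_mono {C : Set (V n)} (h : PCone C) {u z : V n} {M M' : ℝ} (hu : u ∈ closure C)
    (hM : M ≤ M') (hz : M • u - z ∈ closure C) : M' • u - z ∈ closure C := by
  have h1 := h.cl_add hz (h.cl_smul hu (sub_nonneg.2 hM))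
  have e : M • u - z + (M' - M) • u = M' • u - z := by
    rw [sub_smul]; abel
  rwa [e] at h1

theorem sum_inv {τ : Fin K → Fin K} (inv : ∀ i, τ (τ i) = i) (f : Fin K → V n) :
    ∑ i, f (τ i) = ∑ i, f i :=
  Equiv.sum_comp (Function.Involutive.toPerm τ inv) f

theorem sum_inv_erase {τ : Fin K → Fin K} (inv : ∀ i, τ (τ i) = i) (i : Fin K)
    (f : Fin K → V n) :
    ∑ l ∈ (Finset.univ.erase i).erase (τ i), f (τ l) =
      ∑ l ∈ (Finset.univ.erase i).erase (τ i), f l := by
  have key : ∀ l, l ∈ (Finset.univ.erase i).erase (τ i) →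
      τ l ∈ (Finset.univ.erase i).erase (τ i) := by
    intro l hl
    rw [Finset.mem_erase, Finset.mem_erase] at hl ⊢
    refine ⟨fun h => ?_, fun h => ?_, Finset.mem_univ _⟩
    · have h2 := congrArg τ h
      rw [inv, inv] at h2
      exact hl.2.1 h2
    · have h2 := congrArg τ h
      rw [inv] at h2
      exact hl.1 h2
  exact Finset.sum_nbij' τ τ key key (fun l _ => inv l) (fun l _ => inv l) (fun l _ => rfl)

theorem dcp (nng : NngStmt) (pbf : PbfStmt) (tbx : TbxStmt) : DcpStmt := by
  intro n C Γ K c τ hD w hw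
  have hC : PCone C := hD.toCC.toPCone
  have inv : ∀ i, τ (τ i) = i := hD.toTau.inv
  obtain ⟨t1, -, -, -⟩ := tbx n C Γ K c τ hD w hw
  have hP : PES C w := hw.pes.1
  have hcl : ∀ i, w i ∈ closure C := fun i => hP.cl i
  have hfix : ∀ i, τ i = i → Lf C τ w i = Submodule.span ℝ {w i} := by
    intro i hi
    unfold Lf
    rw [if_pos hi]
  have hnf : ∀ i, τ i ≠ i → Lf C τ w i = Fs C (w i) (w (τ i)) := by
    intro i hi
    unfold Lf
    rw [if_neg hi]
  have p1 : ∀ i, w i ∈ Lf C τ w i := by
    intro i
    by_cases hi : τ i = i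
    · rw [hfix i hi]
      exact Submodule.mem_span_singleton_self _
    · rw [hnf i hi]
      exact (t1 i (τ i) (Ne.symm hi)).left
  have p2 : ∀ i, Lf C τ w (τ i) = Lf C τ w i := by
    intro i
    by_cases hi : τ i = i
    · rw [hi]
    · have hi' : τ (τ i) ≠ τ i := by
        rw [inv]
        exact Ne.symm hi
      rw [hnf i hi, hnf (τ i) hi', inv]
      unfold Fs
      rw [add_comm]
  have p3 : ∀ i, Unt C (Lf C τ w i) (w i + w (τ i)) := by
    intro i
    by_cases hi : τ i = i
    · rw [hi]
      refine ⟨Submodule.add_mem _ (p1 i) (p1 i), hC.cl_add (hcl i) (hcl i), ?_⟩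
      intro z hz
      rw [hfix i hi, Submodule.mem_span_singleton] at hz
      obtain ⟨a, rfl⟩ := hz
      refine ⟨|a| + 1, by positivity, ?_⟩
      have e : (|a| + 1) • (w i + w i) - a • w i = (2 * (|a| + 1) - a) • w i := by
        module
      rw [e]
      refine hC.cl_smul (hcl i) ?_
      have := le_abs_self a
      have := abs_nonneg a
      linarith
    · rw [hnf i hi]
      exact ((pbf n C hC K w hP i (τ i) (Ne.symm hi)).1 _ (t1 i (τ i) (Ne.symm hi))).1
  have p4 : ∀ x : Fin K → V n, (∀ i, x i ∈ Lf C τ w i) → ∑ i, x i ∈ closure C →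
      ∀ i, x i + x (τ i) ∈ closure C := by
    intro x hx hs i
    obtain ⟨y, hydef⟩ : ∃ y : Fin K → V n, ∀ l, y l = x l + x (τ l) := ⟨_, fun l => rfl⟩
    rw [← hydef]
    have hy : ∀ l, y l ∈ Lf C τ w l := by
      intro l
      rw [hydef]
      refine Submodule.add_mem _ (hx l) ?_
      rw [← p2 l]
      exact hx (τ l)
    have hyτ : ∀ l, y (τ l) = y l := by
      intro l
      rw [hydef, hydef, inv, add_comm]
    choose M hM0 hM using fun l => (p3 l).2.2 (y l) (hy l)
    obtain ⟨A, hAdef⟩ : ∃ A : ℝ, A = ∑ l, M l := ⟨_, rfl⟩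
    have hA : ∀ l, M l ≤ A := by
      intro l
      rw [hAdef]
      exact Finset.single_le_sum (f := M) (fun j _ => (hM0 j).le) (Finset.mem_univ l)
    have hu : ∀ l, A • (w l + w (τ l)) - y l ∈ closure C := fun l =>
      cl_mono hC (p3 l).2.1 (hA l) (hM l)
    have hsy : ∑ l, y l ∈ closure C := by
      have e : ∑ l, y l = (2 : ℝ) • ∑ l, x l := by
        rw [Finset.sum_congr rfl (fun l _ => hydef l), Finset.sum_add_distrib, sum_inv inv x,
          two_smul]
      rw [e]
      exact hC.cl_smul hs (by norm_num)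
    obtain ⟨S, hS⟩ : ∃ S : Finset (Fin K), S = (Finset.univ.erase i).erase (τ i) := ⟨_, rfl⟩
    have hSu : ∑ l ∈ S, (A • (w l + w (τ l)) - y l) ∈ closure C := hC.cl_sum (fun l _ => hu l)
    have hSw : ∑ l ∈ S, A • (w l + w (τ l)) = ∑ l ∈ S, (2 * A) • w l := by
      simp only [smul_add, Finset.sum_add_distrib]
      rw [hS, sum_inv_erase inv i (fun l => A • w l), ← Finset.sum_add_distrib]
      apply Finset.sum_congr rfl
      intro l _
      rw [two_mul, add_smul]
    rw [Finset.sum_sub_distrib, hSw] at hSu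
    by_cases hi : τ i = i
    · have hS2 : S = Finset.univ.erase i := by
        rw [hS, hi]
        exact Finset.erase_eq_of_notMem (Finset.notMem_erase i _)
      have e1 : ∑ l, y l = y i + ∑ l ∈ S, y l := by
        rw [← Finset.add_sum_erase _ _ (Finset.mem_univ i), hS2]
      have hxi := hx i
      rw [hfix i hi, Submodule.mem_span_singleton] at hxi
      obtain ⟨b, hb⟩ := hxi
      have e3 : y i = (2 * b) • w i := by
        rw [hydef, hi, ← hb, two_mul, add_smul]
      have e2 : y i + ∑ l ∈ S, (2 * A) • w l ∈ closure C := by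
        have h1 := hC.cl_add hsy hSu
        rw [e1] at h1
        have e : y i + ∑ l ∈ S, y l + (∑ l ∈ S, (2 * A) • w l - ∑ l ∈ S, y l) =
            y i + ∑ l ∈ S, (2 * A) • w l := by abel
        rwa [e] at h1
      have h2 := nng n C hC (Fin K) w hP (fun l => if l = i then 2 * b else 2 * A) (by
        rw [← Finset.add_sum_erase _ _ (Finset.mem_univ i), if_pos rfl, ← e3]
        have e : ∑ l ∈ Finset.univ.erase i, (if l = i then 2 * b else 2 * A) • w l =
            ∑ l ∈ S, (2 * A) • w l := by
          rw [hS2]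
          apply Finset.sum_congr rfl
          intro l hl
          rw [if_neg (Finset.ne_of_mem_erase hl)]
        rw [e]
        exact e2) i
      rw [if_pos rfl] at h2
      rw [e3]
      exact hC.cl_smul (hcl i) h2
    · have e1 : ∑ l, y l = y i + (y i + ∑ l ∈ S, y l) := by
        rw [← Finset.add_sum_erase _ _ (Finset.mem_univ i),
          ← Finset.add_sum_erase _ _ (Finset.mem_erase.2 ⟨hi, Finset.mem_univ (τ i)⟩), hyτ, hS]
      have e2 : y i + ∑ l ∈ (Finset.univ.erase i).erase (τ i), A • w l ∈ closure C := by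
        rw [← hC.cl_smul_iff (show (0 : ℝ) < 2 by norm_num)]
        have h1 := hC.cl_add hsy hSu
        rw [e1] at h1
        have e : y i + (y i + ∑ l ∈ S, y l) + (∑ l ∈ S, (2 * A) • w l - ∑ l ∈ S, y l) =
            (2 : ℝ) • (y i + ∑ l ∈ S, A • w l) := by
          have e4 : ∑ l ∈ S, (2 * A) • w l = (2 : ℝ) • ∑ l ∈ S, A • w l := by
            rw [Finset.smul_sum]
            apply Finset.sum_congr rfl
            intro l _
            rw [smul_smul]
          rw [e4, smul_add, two_smul ℝ (y i)]
          abel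
        rw [e, hS] at h1
        exact h1
      have hyF : y i ∈ Fs C (w i) (w (τ i)) := by
        rw [← hnf i hi]
        exact hy i
      exact (((pbf n C hC K w hP i (τ i) (Ne.symm hi)).1 _
        (t1 i (τ i) (Ne.symm hi))).2.2.1 (y i) hyF (fun _ => A) e2).1
  have p5 : ∀ x : Fin K → V n, (∀ i, x i ∈ Lf C τ w i) → ∑ i, x i = 0 →
      ∀ i, x i + x (τ i) = 0 := by
    intro x hx hs i
    have h1 := p4 x hx (by rw [hs]; exact hC.zero_cl) i
    have h2 := p4 (fun l => - x l) (fun l => Submodule.neg_mem _ (hx l)) (by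
      rw [Finset.sum_neg_distrib, hs, neg_zero]
      exact hC.zero_cl) i
    refine hC.salient _ h1 ?_
    rw [neg_add]
    exact h2
  refine ⟨p1, p2, p3, p4, p5, ?_, ?_⟩
  · intro p
    constructor
    · intro hp
      unfold Ws at hp
      rw [Submodule.mem_iSup_iff_exists_finsupp] at hp
      obtain ⟨f, hf, hfp⟩ := hp
      refine ⟨f, hf, ?_⟩
      rw [← hfp, Finsupp.sum]
      symm
      apply Finset.sum_subset (Finset.subset_univ _)
      intro l _ hl
      exact Finsupp.notMem_support_iff.1 hl
    · rintro ⟨x, hx, rfl⟩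
      unfold Ws
      exact Submodule.sum_mem _ (fun l _ => Submodule.mem_iSup_of_mem l (hx l))
  · intro x hx
    constructor
    · intro hp i
      have hpc : ∑ l, x l ∈ closure C := subset_closure hp
      have hyi := p4 x hx hpc i
      refine ⟨Submodule.add_mem _ (hx i) (by rw [← p2 i]; exact hx (τ i)), hyi, ?_⟩
      intro z hz
      obtain ⟨M, hM, hMz⟩ := hC.absorb hp z
      refine ⟨M, hM, ?_⟩
      have h1 := p4 (fun l => M • x l - if l = i then z else 0) (by
        intro l
        refine Submodule.sub_mem _ (Submodule.smul_mem _ _ (hx l)) ?_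
        by_cases hl : l = i
        · rw [if_pos hl, hl]
          exact hz
        · rw [if_neg hl]
          exact Submodule.zero_mem _) (by
        rw [Finset.sum_sub_distrib, ← Finset.smul_sum, Finset.sum_ite_eq' Finset.univ i,
          if_pos (Finset.mem_univ i)]
        exact subset_closure hMz) i
      simp only [if_true] at h1
      by_cases hi : τ i = i
      · rw [if_pos hi] at h1
        have h2 := hC.cl_add h1 (hC.cl_smul hyi hM.le)
        rw [← hC.cl_smul_iff (show (0 : ℝ) < 2 by norm_num)]
        have e : (2 : ℝ) • (M • (x i + x (τ i)) - z) =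
            M • x i - z + (M • x (τ i) - z) + M • (x i + x (τ i)) := by
          rw [smul_sub, two_smul, two_smul, smul_add]
          abel
        rw [e]
        exact h2
      · rw [if_neg hi, sub_zero] at h1
        have e : M • (x i + x (τ i)) - z = M • x i - z + M • x (τ i) := by
          rw [smul_add]
          abel
        rw [e]
        exact h1
    · intro hU
      choose M hM0 hM using fun i => (hU i).2.2 (w i + w (τ i)) (p3 i).1
      obtain ⟨A, hAdef⟩ : ∃ A : ℝ, A = 1 + ∑ l, M l := ⟨_, rfl⟩
      have hs0 : 0 ≤ ∑ l, M l := Finset.sum_nonneg (fun l _ => (hM0 l).le)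
      have hA0 : 0 < A := by linarith
      have hA : ∀ l, M l ≤ A := by
        intro l
        have := Finset.single_le_sum (f := M) (fun j _ => (hM0 j).le) (Finset.mem_univ l)
        linarith
      have h1 : ∑ l, (A • (x l + x (τ l)) - (w l + w (τ l))) ∈ closure C :=
        hC.cl_sum (fun l _ => cl_mono hC (hU l).2.1 (hA l) (hM l))
      have e1 : ∑ l, (A • (x l + x (τ l)) - (w l + w (τ l))) =
          (2 : ℝ) • (A • (∑ l, x l) - ∑ l, w l) := by
        rw [Finset.sum_sub_distrib, ← Finset.smul_sum, Finset.sum_add_distrib,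
          Finset.sum_add_distrib, sum_inv inv x, sum_inv inv w, smul_sub, two_smul, two_smul,
          smul_add]
      rw [e1, hC.cl_smul_iff (show (0 : ℝ) < 2 by norm_num)] at h1
      have h2 := hC.mem_of_le hP.sum_mem h1
      exact (hC.smul_iff hA0).1 h2

end Pool.Agent.NTW.H31
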